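import Pool.Agent.Helper37_CAP.Stmts

/-!
# Squad CAP: modules DSE and TRA
-/

set_option autoImplicit false

open Finset

namespace Pool.Agent.CAP.H58

open Pool.Agent.CAP

/-- **DSE** -/
theorem dse : DSE := by
  classical
  intro k D hk hD
  have hcard : (D.image (pr k)).card = k + 1 := by
    rw [Finset.card_image_of_injOn (fun a ha b hb h => hD.inj a ha b hb h), hD.card]
  have : NeZero (k + 2) := ⟨by omega⟩
  have hc : ((D.image (pr k))ᶜ).card = 1 := by
    rw [Finset.card_compl, hcard, ZMod.card]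
    omega
  obtain ⟨c₀, hc₀⟩ := Finset.card_eq_one.1 hc
  refine ⟨c₀, fun c => ?_⟩
  have h : c ∈ (D.image (pr k))ᶜ ↔ c = c₀ := by rw [hc₀, Finset.mem_singleton]
  rw [Finset.mem_compl, Finset.mem_image] at h
  constructor
  · intro h1 h2
    exact h.2 h2 h1
  · intro h1
    by_contra h2
    exact h1 (h.1 h2)

theorem ads_translate {k : ℕ} {D : Finset (ZMod (k * (k + 2)))} (hD : ADS k D)
    (a : ZMod (k * (k + 2))) : ADS k (D.image (fun d => d + a)) := by
  refine ⟨?_, ?_, ?_, ?_⟩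
  · rw [Finset.card_image_of_injective _ (add_left_injective a), hD.card]
  · intro g hg
    obtain ⟨d, hd, d', hd', h⟩ := hD.ex g hg
    exact ⟨d + a, Finset.mem_image_of_mem _ hd, d' + a, Finset.mem_image_of_mem _ hd',
      by rw [add_sub_add_right_eq_sub, h]⟩
  · intro x hx y hy z hz w hw h hne
    obtain ⟨x', hx', rfl⟩ := Finset.mem_image.1 hx
    obtain ⟨y', hy', rfl⟩ := Finset.mem_image.1 hy
    obtain ⟨z', hz', rfl⟩ := Finset.mem_image.1 hz
    obtain ⟨w', hw', rfl⟩ := Finset.mem_image.1 hw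
    simp only [add_sub_add_right_eq_sub] at h
    obtain ⟨h1, h2⟩ := hD.uniq x' hx' y' hy' z' hz' w' hw' h (fun h3 => hne (by rw [h3]))
    exact ⟨by rw [h1], by rw [h2]⟩
  · intro x hx y hy h
    obtain ⟨x', hx', rfl⟩ := Finset.mem_image.1 hx
    obtain ⟨y', hy', rfl⟩ := Finset.mem_image.1 hy
    simp only [map_add, add_left_inj] at h
    rw [hD.inj x' hx' y' hy' h]

/-- **TRA** -/
theorem tra : TRA := by
  classical
  intro k D hk hD
  refine ⟨fun a => ads_translate hD a, ?_⟩
  refine ⟨-((k + 1 : ℕ) : ZMod (k * (k + 2))) * ∑ d ∈ D, d, ?_⟩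
  rw [Finset.sum_image (fun x _ y _ h => add_left_injective _ h), Finset.sum_add_distrib,
    Finset.sum_const, hD.card, nsmul_eq_mul]
  have h : ((k * (k + 2) : ℕ) : ZMod (k * (k + 2))) = 0 := ZMod.natCast_self _
  push_cast at h ⊢
  linear_combination (-(∑ d ∈ D, d)) * h

end Pool.Agent.CAP.H58
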